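import Pool.Agent.Helper84.MG.Defs
import Pool.Agent.Helper84.MG.Ground

open Pool.Agent.Helper84.MG

namespace Pool.Agent.Results.MP_18f314_lc.CohenCounterexample

/-- **Disproof.** There are a forcing notion `Q` that is strongly proper for stationarily many
models and a topological space `(X, τ)` such that player II has a winning strategy in the Menger
game on `(X, τ)` in the universe of sets, while the truth value (in the nontrivial complete
Boolean algebra of `Q`) of II has a winning strategy in the Menger game on `X` with the topology
generated by `τ` is `⊥`: in every `Q`-generic extension II has no winning strategy. -/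
theorem result : ∃ (Q : ForcingNotion) (X τ : ZFSet.{0}), Q.StronglyProperStat ∧
    IsTopologyOn X τ ∧ V.MengerII X τ ∧ Q.valMengerII X τ = ⊥ ∧ (⊤ : RegOpen Q.Cond) ≠ ⊥ := main

end Pool.Agent.Results.MP_18f314_lc.CohenCounterexample
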